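import Pool.Agent.Helper92.BO.GoalsE

/-!
# EDG: the graph of a system
-/

namespace Pool.Agent.Helper85.BO

open Pool.Agent.Helper92.BO Pool.Agent.Helper92.VP Pool.Agent.Helper92.FR Pool.Agent.Bin

theorem BN_eq_zero (b : BN) : b = ⟨0⟩ ↔ b.val = 0 := by
  cases b
  simp

theorem negB_iff (x : RQ) : negB x = true ↔ RQ.val x < 0 := by
  obtain ⟨s, a, d⟩ := x
  unfold negB RQ.val
  cases s
  · simp only [Bool.false_and, Bool.false_eq_true, if_false, one_mul, false_iff, not_lt]
    positivity
  · simp only [Bool.true_and, Bool.and_eq_true, decide_eq_true_eq, if_true, ne_eq, BN_eq_zero]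
    constructor
    · rintro ⟨h1, h2⟩
      have h3 : (0 : ℝ) < a.val := by exact_mod_cast Nat.pos_of_ne_zero h1
      have h4 : (0 : ℝ) < d.val := by exact_mod_cast Nat.pos_of_ne_zero h2
      rw [neg_one_mul, neg_div]
      have := div_pos h3 h4
      linarith
    · intro h
      constructor
      · intro h1
        rw [h1] at h
        simp at h
      · intro h1
        rw [h1] at h
        simp at h

theorem mem_negs (n : ℕ) (r : List RQ × RQ) (j : ℕ) :
    j ∈ negs n r ↔ j < n ∧ coef r j < 0 := by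
  unfold negs coef
  rw [List.mem_filter, List.mem_range, negB_iff]

theorem nodup_negs (n : ℕ) (r : List RQ × RQ) : (negs n r).Nodup :=
  List.nodup_range.filter _

theorem negs_low {n : ℕ} {r : List RQ × RQ} {i : ℕ} (h : IsLow n r i) :
    (negs n r).length = 0 := by
  rw [List.length_eq_zero_iff, List.eq_nil_iff_forall_not_mem]
  intro j hj
  rw [mem_negs] at hj
  rw [h.2 j hj.1] at hj
  split_ifs at hj <;> linarith [hj.2]

theorem negs_up {n : ℕ} {r : List RQ × RQ} {i : ℕ} (h : IsUp n r i) :
    (negs n r).length ≤ 1 := by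
  rw [← List.toFinset_card_of_nodup (nodup_negs n r)]
  apply Finset.card_le_one_iff_subset_singleton.2
  refine ⟨i, ?_⟩
  intro j hj
  rw [List.mem_toFinset, mem_negs] at hj
  rw [h.2 j hj.1] at hj
  rw [Finset.mem_singleton]
  by_contra hne
  rw [if_neg hne] at hj
  linarith [hj.2]

theorem negs_edge {n : ℕ} {r : List RQ × RQ} {i j : ℕ} (hi : i < n) (hj : j < n)
    (h : IsEdge n r i j) : negs n r = [i, j] ∨ negs n r = [j, i] := by
  have h1 : (negs n r).toFinset = {i, j} := by
    ext k
    rw [List.mem_toFinset, mem_negs, Finset.mem_insert, Finset.mem_singleton]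
    constructor
    · intro hk
      rw [h.2.2 k hk.1] at hk
      by_contra hne
      rw [if_neg hne] at hk
      linarith [hk.2]
    · intro hk
      have hkn : k < n := by
        rcases hk with rfl | rfl
        · exact hi
        · exact hj
      refine ⟨hkn, ?_⟩
      rw [h.2.2 k hkn, if_pos hk]
      norm_num
  have h2 : (negs n r).length = 2 := by
    rw [← List.toFinset_card_of_nodup (nodup_negs n r), h1, Finset.card_pair h.1]
  obtain ⟨a, b, hab⟩ := List.length_eq_two.1 h2
  have hnd := nodup_negs n r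
  rw [hab] at hnd h1 ⊢
  have hne : a ≠ b := by
    intro he
    rw [he] at hnd
    simp at hnd
  have ha : a = i ∨ a = j := by
    have : a ∈ ([a, b] : List ℕ).toFinset := by simp
    rw [h1] at this
    simpa using this
  have hb : b = i ∨ b = j := by
    have : b ∈ ([a, b] : List ℕ).toFinset := by simp
    rw [h1] at this
    simpa using this
  rcases ha with rfl | rfl
  · rcases hb with rfl | rfl
    · exact absurd rfl hne
    · exact Or.inl rfl
  · rcases hb with rfl | rfl
    · exact Or.inr rfl
    · exact absurd rfl hne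

theorem IsEdge.symm {n : ℕ} {r : List RQ × RQ} {i j : ℕ} (h : IsEdge n r i j) :
    IsEdge n r j i := by
  refine ⟨h.1.symm, h.2.1, ?_⟩
  intro k hk
  rw [h.2.2 k hk]
  simp only [or_comm]

theorem adj_iff (Δ : ℕ) (S : Sys) (hS : BipStab Δ S) (u w : ℕ) :
    (gE (edgesS S)).Adj u w ↔ u < S.1 ∧ w < S.1 ∧ Nbr S u w := by
  have h0 : (gE (edgesS S)).Adj u w ↔ adjB (edgesS S) u w = true := Iff.rfl
  rw [h0]
  simp only [adjB, Bool.and_eq_true, decide_eq_true_eq, List.any_eq_true, Bool.or_eq_true]
  constructor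
  · rintro ⟨hne, e, he, h⟩
    unfold edgesS at he
    rw [List.mem_map] at he
    obtain ⟨r, hr, rfl⟩ := he
    rw [List.mem_filter, decide_eq_true_eq] at hr
    obtain ⟨hr, hlen⟩ := hr
    rcases hS.1 r hr with ⟨i, _, hl⟩ | ⟨i, _, hup⟩ | ⟨i, hi, j, hj, hE⟩
    · rw [negs_low hl] at hlen
      omega
    · have := negs_up hup
      omega
    · have hcases : (u = i ∧ w = j) ∨ (u = j ∧ w = i) := by
        rcases negs_edge hi hj hE with hn | hn
        · rw [hn] at h
          simp at h
          rcases h with ⟨h1, h2⟩ | ⟨h1, h2⟩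
          · exact Or.inl ⟨h1.symm, h2.symm⟩
          · exact Or.inr ⟨h2.symm, h1.symm⟩
        · rw [hn] at h
          simp at h
          rcases h with ⟨h1, h2⟩ | ⟨h1, h2⟩
          · exact Or.inr ⟨h1.symm, h2.symm⟩
          · exact Or.inl ⟨h2.symm, h1.symm⟩
      rcases hcases with ⟨rfl, rfl⟩ | ⟨rfl, rfl⟩
      · exact ⟨hi, hj, r, hr, hE⟩
      · exact ⟨hj, hi, r, hr, IsEdge.symm hE⟩
  · rintro ⟨hu, hw, r, hr, hE⟩
    refine ⟨hE.1, ((negs S.1 r).getD 0 0, (negs S.1 r).getD 1 0), ?_, ?_⟩
    · unfold edgesS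
      rw [List.mem_map]
      refine ⟨r, ?_, rfl⟩
      rw [List.mem_filter, decide_eq_true_eq]
      refine ⟨hr, ?_⟩
      rcases negs_edge hu hw hE with hn | hn
      · rw [hn]
        rfl
      · rw [hn]
        rfl
    · rcases negs_edge hu hw hE with hn | hn
      · rw [hn]
        left
        simp
      · rw [hn]
        right
        simp

theorem sum_single {n : ℕ} (r : List RQ × RQ) (i : Fin n) (c : ℝ)
    (h : ∀ k < n, coef r k = if k = (i : ℕ) then c else 0) (x : Fin n → ℝ) :
    ∑ j : Fin n, coef r j * x j = c * x i := by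
  rw [Finset.sum_eq_single i]
  · rw [h i i.2, if_pos rfl]
  · intro j _ hj
    rw [h j j.2, if_neg (fun he => hj (Fin.ext he)), zero_mul]
  · intro hi
    exact absurd (Finset.mem_univ _) hi

theorem sum_edge {n : ℕ} (r : List RQ × RQ) (i j : Fin n)
    (h : IsEdge n r i j) (x : Fin n → ℝ) :
    ∑ k : Fin n, coef r k * x k = -x i - x j := by
  have hij : i ≠ j := fun he => h.1 (by rw [he])
  have h1 : ∀ k : Fin n, coef r k * x k =
      (if k = i then -x i else 0) + (if k = j then -x j else 0) := by
    intro k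
    rw [h.2.2 k k.2]
    by_cases hki : k = i
    · subst hki
      rw [if_pos (Or.inl rfl), if_pos rfl, if_neg hij]
      ring
    · by_cases hkj : k = j
      · subst hkj
        rw [if_pos (Or.inr rfl), if_neg hki, if_pos rfl]
        ring
      · rw [if_neg, if_neg hki, if_neg hkj]
        · ring
        · rintro (h2 | h2)
          · exact hki (Fin.ext h2)
          · exact hkj (Fin.ext h2)
  rw [Finset.sum_congr rfl fun k _ => h1 k, Finset.sum_add_distrib]
  simp
  ring

/-- EDG: the graph of a system. -/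
theorem edg : EdgStmt := by
  intro Δ S hS
  have hadj := adj_iff Δ S hS
  obtain ⟨hrows, hvars, ⟨side, hside⟩, hdeg⟩ := hS
  refine ⟨⟨fun v => if side v then 1 else -1, ?_, ?_⟩, ?_, ?_⟩
  · intro v
    by_cases h : side v = true
    · left
      simp [h]
    · right
      simp [h]
  · intro u w huw
    obtain ⟨hu, hw, hN⟩ := (hadj u w).1 huw
    have h1 := hside u hu w hw hN
    cases hsu : side u <;> cases hsw : side w <;> simp_all
  · intro v
    by_cases hv : v < S.1
    · have h1 : (gE (edgesS S)).neighborSet v = {j | j < S.1 ∧ Nbr S v j} := by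
        ext j
        rw [SimpleGraph.mem_neighborSet, hadj]
        simp [hv]
      rw [h1]
      have hfin : {j | j < S.1 ∧ Nbr S v j}.Finite :=
        (Set.finite_lt_nat S.1).subset fun j hj => hj.1
      rw [← hfin.cast_ncard_eq]
      exact_mod_cast hdeg v hv
    · have h1 : (gE (edgesS S)).neighborSet v = ∅ := by
        ext j
        rw [SimpleGraph.mem_neighborSet, hadj]
        simp [hv]
      rw [h1]
      simp
  · ext x
    constructor
    · intro hx
      have hlow : ∀ i : Fin S.1, 0 ≤ x i := by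
        intro i
        obtain ⟨⟨r, hr, hl⟩, _⟩ := hvars i i.2
        have h1 := hx r hr
        rw [sum_single r i 1 hl.2, hl.1] at h1
        linarith
      have hedge : ∀ i j : Fin S.1, Nbr S i j → x i + x j ≤ 1 := by
        intro i j ⟨r, hr, hE⟩
        have h1 := hx r hr
        rw [sum_edge r i j hE, hE.2.1] at h1
        linarith
      refine ⟨fun i => ⟨hlow i, ?_⟩, ?_⟩
      · obtain ⟨_, h2⟩ := hvars i i.2
        rcases h2 with ⟨r, hr, hup⟩ | ⟨j, hj, hN⟩
        · have h1 := hx r hr
          rw [sum_single r i (-1) hup.2, hup.1] at h1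
          linarith
        · have h1 := hedge i ⟨j, hj⟩ hN
          have h2 := hlow ⟨j, hj⟩
          linarith
      · intro i j hij
        exact hedge i j ((hadj i j).1 hij).2.2
    · rintro ⟨hbox, hedge⟩ r hr
      rcases hrows r hr with ⟨i, hi, hl⟩ | ⟨i, hi, hup⟩ | ⟨i, hi, j, hj, hE⟩
      · rw [sum_single r (⟨i, hi⟩ : Fin S.1) 1 hl.2, hl.1]
        linarith [(hbox ⟨i, hi⟩).1]
      · rw [sum_single r (⟨i, hi⟩ : Fin S.1) (-1) hup.2, hup.1]
        linarith [(hbox ⟨i, hi⟩).2]
      · rw [sum_edge r (⟨i, hi⟩ : Fin S.1) (⟨j, hj⟩ : Fin S.1) hE, hE.2.1]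
        have h1 := hedge ⟨i, hi⟩ ⟨j, hj⟩ ((hadj i j).2 ⟨hi, hj, r, hr, hE⟩)
        linarith

end Pool.Agent.Helper85.BO
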