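import Pool.Agent.Helper92.BO.GoalsC

/-!
# PVZ: simple facts on the coefficients
-/

namespace Pool.Agent.Helper85.BO

open Pool.Agent.Helper92.BO MeasureTheory

theorem EI_subset_Icc (G : SimpleGraph ℕ) (n : ℕ) (I : Finset (Fin n)) :
    EI G n I ⊆ Set.Icc (fun _ => (0 : ℝ)) (fun _ => 1) := by
  intro U hU
  exact ⟨fun i => (hU.1 i).1, fun i => (hU.1 i).2⟩

theorem vol_cube (n : ℕ) :
    volume (Set.Icc (fun _ : Fin n => (0 : ℝ)) (fun _ => 1)) = 1 := by
  rw [Real.volume_Icc_pi]
  simp

theorem vol_hyper (n : ℕ) (i j : Fin n) (hij : i ≠ j) :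
    volume {U : Fin n → ℝ | U i = U j} = 0 := by
  have h1 : {U : Fin n → ℝ | U i = U j} =
      ((LinearMap.ker (LinearMap.proj (R := ℝ) (φ := fun _ : Fin n => ℝ) i -
        LinearMap.proj (R := ℝ) (φ := fun _ : Fin n => ℝ) j) : Submodule ℝ (Fin n → ℝ)) :
        Set (Fin n → ℝ)) := by
    ext U
    simp [sub_eq_zero]
  rw [h1]
  refine Measure.addHaar_submodule _ _ ?_
  intro htop
  have h2 : (Pi.single i (1 : ℝ) : Fin n → ℝ) ∈
      (LinearMap.ker (LinearMap.proj (R := ℝ) (φ := fun _ : Fin n => ℝ) i -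
        LinearMap.proj (R := ℝ) (φ := fun _ : Fin n => ℝ) j) : Submodule ℝ (Fin n → ℝ)) := by
    rw [htop]
    trivial
  rw [LinearMap.mem_ker] at h2
  simp [Pi.single_eq_of_ne hij.symm] at h2

/-- PVZ: simple facts on the coefficients. -/
theorem pvz : PvzStmt := by
  intro G n
  refine ⟨?_, ?_, ?_⟩
  · have h : EI G n ∅ = Set.Icc (fun _ => (0 : ℝ)) (fun _ => 1) := by
      ext U
      constructor
      · intro hU
        exact EI_subset_Icc G n ∅ hU
      · intro hU
        exact ⟨fun i => ⟨hU.1 i, hU.2 i⟩, by simp⟩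
    unfold PV
    rw [h, vol_cube]
    simp
  · intro I
    refine ⟨ENNReal.toReal_nonneg, ?_⟩
    have h1 : volume (EI G n I) ≤ 1 := by
      rw [← vol_cube n]
      exact measure_mono (EI_subset_Icc G n I)
    unfold PV
    exact ENNReal.toReal_le_of_le_ofReal zero_le_one (by simpa using h1)
  · intro I i j hi hj hadj
    have hij : i ≠ j := by
      intro h
      rw [h] at hadj
      exact G.loopless.irrefl _ hadj
    have h1 : EI G n I ⊆ {U : Fin n → ℝ | U i = U j} := by
      intro U hU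
      exact le_antisymm (hU.2 j hj i hadj.symm) (hU.2 i hi j hadj)
    have h2 : volume (EI G n I) = 0 := measure_mono_null h1 (vol_hyper n i j hij)
    unfold PV
    rw [h2]
    simp

end Pool.Agent.Helper85.BO
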