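import Pool.Agent.Helper92.BO.GoalsG

/-! # BO-TMA: superadditivity along decreasing paths -/

namespace Pool.Agent.Helper85.BO

open Pool.Agent.Helper92.BO

theorem tma : TmaStmt := by
  intro G l L b b' b'' h1 h2
  unfold Tm
  rw [← List.sum_map_add]
  apply List.sum_le_sum
  intro u hu
  have h1u := h1 u hu
  have h2u := h2 u hu
  set p := Ph G l L u b
  set p' := Ph G l L u b'
  set p'' := Ph G l L u b''
  by_cases h : b'' u < b u
  · rw [if_pos h]
    have e1 : (if b' u < b u then p' - p else -|p' - p|) ≤ p' - p := by
      split_ifs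
      · exact le_refl _
      · exact neg_abs_le _
    have e2 : (if b'' u < b' u then p'' - p' else -|p'' - p'|) ≤ p'' - p' := by
      split_ifs
      · exact le_refl _
      · exact neg_abs_le _
    linarith
  · have h3 : ¬ b' u < b u := fun hh => h (lt_of_le_of_lt h2u hh)
    have h4 : ¬ b'' u < b' u := fun hh => h (lt_of_lt_of_le hh h1u)
    rw [if_neg h, if_neg h3, if_neg h4]
    have := abs_sub_le p'' p' p
    linarith

end Pool.Agent.Helper85.BO
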