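import Pool.Agent.Helper92.BO.GoalsB

/-!
# ZNA: the zero-free region near the interval `[l1, 1]`
-/

namespace Pool.Agent.Helper85.BO

open Pool.Agent.Helper92.BO

/-- ZNA: there are no zeros near `[l1, 1]`. -/
theorem zna (h : ChiStmt) : ZnaStmt := by
  intro Δ l1 hl1 hl11
  have hden : (0 : ℝ) < 800 * ((Δ : ℝ) + 1) ^ 2 := by positivity
  have hnum : (0 : ℝ) < l1 * (1 / 4) ^ Δ := by positivity
  have hκ : (0 : ℝ) < l1 * (1 / 4) ^ Δ / (800 * ((Δ : ℝ) + 1) ^ 2) := div_pos hnum hden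
  refine ⟨l1 * (1 / 4) ^ Δ / (800 * ((Δ : ℝ) + 1) ^ 2) * l1 ^ 2 / 8, by positivity, ?_⟩
  intro G s hs hG L hL z l hl hl' hz
  have hl0 : 0 < l := lt_of_lt_of_le hl1 hl
  have h1 : l1 * (1 / 4) ^ Δ / (800 * ((Δ : ℝ) + 1) ^ 2) ≤
      l * (1 / 4) ^ Δ / (800 * ((Δ : ℝ) + 1) ^ 2) := by
    gcongr
  have h2 : ‖z - l‖ ≤ l1 * (1 / 4) ^ Δ / (800 * ((Δ : ℝ) + 1) ^ 2) * l ^ 2 / 8 := by
    refine hz.trans ?_
    gcongr
  have h3 := (h G s l _ Δ z hs hG hl0 hl' hκ h1 h2 L hL).1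
  refine h3 _ ?_
  intro u _
  exact ⟨by norm_num, by norm_num, by norm_num⟩

end Pool.Agent.Helper85.BO
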